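import Mathlib
import Pool.Agent.H27.GlauberC

set_option autoImplicit false

namespace Pool.Agent.Results.MP_a221c1_pr.NotMonotone

open Pool.Agent.H27.Glauber

theorem result :
    ∃ (n : ℕ) (G : SimpleGraph (Fin n)) (_ : DecidableRel G.Adj) (q : ℕ),
      G.Connected ∧ G.maxDegree + 2 ≤ q ∧ mixTime G q < mixTime G (q + 1) := by
  classical
  obtain ⟨q, h1, h2⟩ := main
  refine ⟨4, SimpleGraph.pathGraph 4, inferInstance, q, SimpleGraph.pathGraph_connected 3, ?_, h2⟩
  have := (SimpleGraph.pathGraph 4).maxDegree_lt_card_verts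
  rw [Fintype.card_fin] at this
  omega

end Pool.Agent.Results.MP_a221c1_pr.NotMonotone
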